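import Pool.Agent.Helper81.CP2.Cut
import Pool.Agent.Helper87.NSL.Cps

/-! COPIES OF LABELS, part 5: the joint space of the copies of a partition given the windows `0` of several leaves
(`Helper87.NSL.exists_cps`): full coordinates, cuts, independence. -/

set_option autoImplicit false

namespace Pool.Agent.Helper81.CP2

open Finset Filter Topology Matrix Pool.Agent.Helper69.RK Pool.Agent.Helper31.EC Pool.Agent.Helper31.EC.Sp
open Pool.Agent.Helper40.EL Pool.Agent.Helper84.MT Pool.Agent.Helper89.LX Pool.Agent.Helper3.LF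
open Pool.Agent.Helper76.DIM (pck CutF)
open Pool.Agent.Helper81.CPY

noncomputable section

variable {S T : Sp} {N v D : ℕ} {E : ℕ → ℕ} {Q : S.VV N}

/-- THE COPY of a partition given the window `0` of a leaf, as a label -/
abbrev cLb (l : Leaf S Q E) (V1 : ∀ k, Setoid (S.F k).Ω) : Lab S := cpLab (Lab.ofZ V1) (wnC l 0)

/-- leak exactly zero at the window -/
theorem cLb_leak (l : Leaf S Q E) (V1 : ∀ k, Setoid (S.F k).Ω) (k : ℕ) : (cLb l V1 k).leak (l.win 0 k) = 0 := by
  apply cpLab_leak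
  rw [ker_wnC]
  exact le_rfl

/-- leak zero at the window, as a partition -/
theorem cLb_leak' (l : Leaf S Q E) (V1 : ∀ k, Setoid (S.F k).Ω) (k : ℕ) :
    (cLb l V1 k).leak (fc (l.La k ⊓ Setoid.ker (l.Y.cellv 0 k))) = 0 := cLb_leak l V1 k

section

variable (l : Leaf S Q E) (V1 : ∀ k, Setoid (S.F k).Ω) {W : Sp} (p : Pj W S) (q : Pj W (cLb l V1).sp)
  (hq : ∀ k w, (W.F k).μ w ≠ 0 → (cLb l V1 k).p.π (q.π k w) = p.π k w)

include hq in
/-- pieces of the old space -/
theorem joint_map (k : ℕ) (x : FL (S.F k)) : (q.fp k).map ((cLb l V1 k).p.map x) = (p.fp k).map x := by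
  induction x using fc_ind with | _ B
  have key : ∀ w, (W.F k).μ w ≠ 0 → (cLb l V1 k).p.π (q.π k w) = p.π k w := hq k
  apply le_antisymm
  · apply fc_le
    intro w w' a b _ h
    show B ((cLb l V1 k).p.π (q.π k w)) ((cLb l V1 k).p.π (q.π k w'))
    rw [key w a, key w' b]
    exact h
  · apply fc_le
    intro w w' a b _ h
    have h' : B ((cLb l V1 k).p.π (q.π k w)) ((cLb l V1 k).p.π (q.π k w')) := h
    rw [key w a, key w' b] at h'
    exact h'

include hq in
/-- INDEPENDENCE: the copy is independent of the old space given the window, exactly -/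
theorem joint_indep (k : ℕ) : I (fc (q.pb (cLb l V1).V k)) (p.fp k).top ((p.fp k).map (l.win 0 k)) = 0 := by
  have h1 : (p.fp k).top = (q.fp k).map (cLb l V1 k).p.top := by
    have e1 : (cLb l V1 k).p.top = (cLb l V1 k).p.map (fc ⊥) := (fp_map_bot (cLb l V1).pj k).symm
    rw [e1, joint_map l V1 p q hq, fp_map_bot]
  rw [h1, ← joint_map l V1 p q hq]
  have h2 := (q.fp k).I_map (cLb l V1 k).v (cLb l V1 k).p.top ((cLb l V1 k).p.map (l.win 0 k))
  refine h2.trans ?_
  exact cLb_leak l V1 k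

include hq in
/-- FULL COORDINATES AND CUTS in the joint space -/
theorem cutF_joint {τ : Fin N → Fin N} (hτ : Function.Surjective τ) (hv : v ≤ N) {b : ℝ}
    {g : Fin N → ∀ k, (S.F k).Ω → Matrix (Mon (v + 1) D) (Mon (v + 1) D) ℝ} (x : CutF V1 Q (ini τ hv) b D g)
    (hL : Nul S (fun k => ((Lab.ofZ V1) k).leak (l.win 0 k))) (H : HRw Q l τ v V1) :
    CutF (S := W) (q.pb (cLb l V1).V) (p.vv Q) (ini τ hv) b D (fun i k w => g i k ((q.π k w : _ × _).2)) := by
  have h1 := CutF_pull (cutF_old l hτ hv x hL H) q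
  refine CutF_congr h1 (Eventually.of_forall fun k w hw => ?_) (Eventually.of_forall fun _ _ _ _ _ _ => Iff.rfl)
    (fun _ => Eventually.of_forall fun _ _ _ => rfl)
  show Q.v k (p.π k w) = Q.v k ((q.π k w : _ × _).1)
  have h2 : (q.π k w : _ × _).1 = p.π k w := hq k w hw
  rw [h2]

end

end

end Pool.Agent.Helper81.CP2
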