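import Pool.Agent.Helper81.CP2.Ful
import Pool.Agent.Helper76.DIM.Vtc
import Pool.Agent.Helper81.MT.Bas

/-! COPIES OF LABELS, part 4: full coordinates and cuts at the old point. A literal partition `V1` over which the
coordinates `σ` are full and the others are cut; if for every `ε` there is a finer label with rows, the COPY of `V1` given
the window `0` of a leaf has the same structure at the OLD point. -/

set_option autoImplicit false

namespace Pool.Agent.Helper81.CP2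

open Finset Filter Topology Matrix Pool.Agent.Helper69.RK Pool.Agent.Helper31.EC Pool.Agent.Helper31.EC.Sp
open Pool.Agent.Helper40.EL Pool.Agent.Helper84.MT Pool.Agent.Helper89.LX Pool.Agent.Helper3.LF
open Pool.Agent.Helper95.LF (PdM)
open Pool.Agent.Helper76.DIM (pck CutF)
open Pool.Agent.Helper63.FRT (h_celm_le celm_const)
open Pool.Agent.Helper81.CPY

noncomputable section

variable {S T : Sp} {N v D : ℕ} {E : ℕ → ℕ}

/-! ### the copy of a coarser label -/

theorem push_amw {Ω Ω' Ω'' α : Type} [Fintype Ω] [Fintype Ω'] [Fintype Ω''] (μ : Ω → ℝ) (μ'' : Ω'' → ℝ)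
    (r : Ω'' → Ω') (f : Ω → α) (g : Ω' → α) :
    push (fun w : Ω × Ω'' => (w.1, r w.2)) (amw μ μ'' f fun x => g (r x)) = amw μ (push r μ'') f g := by
  funext ⟨a, b⟩
  rw [push_ind, Fintype.sum_prod_type, Finset.sum_eq_single a]
  · have h1 : ∀ x : Ω'', e1_ind ((fun w : Ω × Ω'' => (w.1, r w.2)) (a, x) = (a, b)) *
        amw μ μ'' f (fun x => g (r x)) (a, x) = e1_ind (f a = g b) * (μ a / ms μ f (f a)) *
          (e1_ind (r x = b) * μ'' x) := by
      intro x
      unfold amw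
      by_cases h : r x = b
      · have h2 : (fun w : Ω × Ω'' => (w.1, r w.2)) (a, x) = (a, b) := by
          show (a, r x) = (a, b)
          rw [h]
        rw [e1_ind_pos h2, e1_ind_pos h]
        show 1 * (e1_ind (f a = g (r x)) * (μ a * μ'' x / ms μ f (f a))) = _
        rw [h]
        ring
      · have h2 : ¬ (fun w : Ω × Ω'' => (w.1, r w.2)) (a, x) = (a, b) := fun h3 => h (congrArg Prod.snd h3)
        rw [e1_ind_neg h2, e1_ind_neg h]
        ring
    rw [Finset.sum_congr rfl fun x _ => h1 x, ← Finset.mul_sum]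
    unfold amw
    have h3 : push r μ'' b = ∑ x, e1_ind (r x = b) * μ'' x := push_ind r μ'' b
    show _ = e1_ind (f a = g b) * (μ a * push r μ'' b / ms μ f (f a))
    rw [h3]
    ring
  · intro a' _ ha
    apply Finset.sum_eq_zero
    intro x _
    have h2 : ¬ (fun w : Ω × Ω'' => (w.1, r w.2)) (a', x) = (a, b) := fun h3 => ha (congrArg Prod.fst h3)
    rw [e1_ind_neg h2, zero_mul]
  · intro h
    exact absurd (Finset.mem_univ _) h

/-- the copy of a label is an extension of the copy of the space itself -/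
def cplM {α : ℕ → Type} (W : Lab S) (C : ∀ k, (S.F k).Ω → α k) (Z : ∀ k, Setoid (S.F k).Ω) :
    Pj (cpl W C).sp (cpl (Lab.ofZ Z) C).sp where
  π := fun k w => (w.1, (W k).p.π w.2)
  law := by
    intro k
    have h1 := push_amw (S.F k).μ (W k).T.μ (W k).p.π (fun ω => (C k ω, Quotient.mk (S.F k).Z ω))
      (fun ω => (C k ω, Quotient.mk (S.F k).Z ω))
    rw [(W k).p.law] at h1
    exact h1
  hZ := fun _ _ _ _ _ => Iff.rfl
  hn := fun _ => rfl

/-- UPPER BOUND for the digits of a vector -/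
theorem h_dig_le (Y : S.VV v) (B : ∀ k, Setoid (S.F k).Ω) (e : ℝ) (he : 0 < e) : ∀ᶠ k in UF,
    h (fc (Setoid.ker (Y.cellv 1 k))) (fc (B k)) / (S.F k).n ≤ v + e := by
  obtain ⟨K, hK, hY⟩ := Y.bd
  have h2 := h_celm_le Y (fun _ => 0) (fun _ => 1) (fun _ => zero_le_one) B (fun k => K k + K k) (hK.add hK) (by
    filter_upwards [hY] with k hk ω ω' a b _ _ i
    rw [S.dl_zero, mul_one]
    refine (abs_sub _ _).trans (add_le_add (hk ω a i) (hk ω' b i))) e he
  filter_upwards [h2] with k a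
  rw [celm_const] at a
  have e1 : ∑ _i : Fin v, ((1 : ℝ) - 0) = v := by simp
  rw [e1] at a
  exact a

/-- a partition as a label over which there are finer labels with rows, for every `ε` -/
def HRw (Q : S.VV N) (l : Leaf S Q E) (τ : Fin N → Fin N) (v : ℕ) (V1 : ∀ k, Setoid (S.F k).Ω) : Prop :=
  ∀ ε : ℝ, 0 < ε → ∃ (W : Lab S) (D : Fin N → ℕ)
    (A : ∀ (j : Fin N) (k : ℕ), (W k).T.Ω → Matrix (Mon ((j : ℕ) + 1) (D j)) (Mon ((j : ℕ) + 1) (D j)) ℝ)
    (a : Fin N → ℝ), (∀ᶠ k in UF, (W k).p.map (fc (V1 k)) ≤ (W k).v) ∧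
    Nul S (fun k => (W k).leak (l.win 0 k)) ∧ Nul S (fun k => (W k).leak (pcd Q k)) ∧ Rows Q τ v W D A a ε

section

variable {Q : S.VV N} (l : Leaf S Q E) {τ : Fin N → Fin N} (hτ : Function.Surjective τ) (hv : v ≤ N)
  {V1 : ∀ k, Setoid (S.F k).Ω}

include hτ in
/-- THE FIRST COORDINATES OF THE OLD POINT ARE FULL over the copied partition -/
theorem full_old (H : HRw Q l τ v V1) : Tendsto (fun k => h (fc (Setoid.ker
    ((pck ((cP0 l (Lab.ofZ V1)).vv Q) (ini τ hv)).cellv 1 k))) (fc (cV0 l (Lab.ofZ V1) k)) /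
      ((cR0 l (Lab.ofZ V1)).F k).n) UF (𝓝 v) := by
  rw [Metric.tendsto_nhds]
  intro ε hε
  obtain ⟨W, D, A, a, h1, h2, h3, h4⟩ := H (ε / 4) (by linarith)
  have h5 := ini_old l W h2 h4 h3 hτ hv (ε / 4) (by linarith)
  have h6 := h_dig_le (S := cR0 l (Lab.ofZ V1)) (pck ((cP0 l (Lab.ofZ V1)).vv Q) (ini τ hv))
    (cV0 l (Lab.ofZ V1)) (ε / 2) (by linarith)
  filter_upwards [h1, h5, h6] with k a1 a5 a6
  have hn := (S.F k).pos
  set M := (cplM W (wnC l 0) V1).fp k with hM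
  have b1 : M.map (fc (Setoid.ker ((pck ((cP0 l (Lab.ofZ V1)).vv Q) (ini τ hv)).cellv 1 k))) =
      fc (Setoid.ker ((pck ((cP0 l W).vv Q) (ini τ hv)).cellv 1 k)) := rfl
  have b2 : M.map (fc (cV0 l (Lab.ofZ V1) k)) ≤ fc (cV0 l W k) := by
    have c1 := ((cpl W (wnC l 0)).p2.fp k).map_mono a1
    exact c1
  have b3 := M.h_map (fc (Setoid.ker ((pck ((cP0 l (Lab.ofZ V1)).vv Q) (ini τ hv)).cellv 1 k)))
    (fc (cV0 l (Lab.ofZ V1) k))
  have b4 : h (fc (Setoid.ker ((pck ((cP0 l W).vv Q) (ini τ hv)).cellv 1 k))) (fc (cV0 l W k)) ≤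
      h (fc (Setoid.ker ((pck ((cP0 l (Lab.ofZ V1)).vv Q) (ini τ hv)).cellv 1 k))) (fc (cV0 l (Lab.ofZ V1) k)) := by
    rw [← b3, b1]
    exact h_anti b2
  rw [Real.dist_eq, abs_lt]
  have b5 := a5.trans b4
  have e1 : ((cR0 l (Lab.ofZ V1)).F k).n = (S.F k).n := rfl
  rw [e1] at a6 ⊢
  rw [← le_div_iff₀ hn] at b5
  constructor <;> linarith

include hτ in
/-- CUTS AND FULL COORDINATES AT THE OLD POINT -/
theorem cutF_old {b : ℝ} {g : Fin N → ∀ k, (S.F k).Ω → Matrix (Mon (v + 1) D) (Mon (v + 1) D) ℝ}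
    (x : CutF V1 Q (ini τ hv) b D g) (hL : Nul S (fun k => ((Lab.ofZ V1) k).leak (l.win 0 k)))
    (H : HRw Q l τ v V1) : CutF (S := cR0 l (Lab.ofZ V1)) (cV0 l (Lab.ofZ V1)) ((cP0 l (Lab.ofZ V1)).vv Q)
      (ini τ hv) b D (fun p k w => g p k w.2) where
  inj := x.inj
  full := full_old l hτ hv H
  pd := fun p hp => by
    filter_upwards [x.pd p hp] with k hk w hw
    exact hk w.2 (wnC_agree l (Lab.ofZ V1) k w hw).2.1
  ms := fun p hp => by
    filter_upwards [x.ms p hp] with k hk w w' hw hw' hZ hV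
    exact hk w.2 w'.2 (wnC_agree l (Lab.ofZ V1) k w hw).2.1 (wnC_agree l (Lab.ofZ V1) k w' hw').2.1
      (((cpl (Lab.ofZ V1) (wnC l 0)).p2.hZ k w w' hw hw').mp hZ) hV
  sm := fun p hp η hη => sm_old l le_rfl one_pos (Lab.ofZ V1) hL (Fin.cons p (ini τ hv)) (g p) (x.pd p hp) (by
      filter_upwards [x.ms p hp] with k hk w w' hw hw' hZ hV _
      exact hk w w' hw hw' hZ hV) (x.sm p hp) η hη
  big := fun p hp η hη => big_old l le_rfl one_pos (Lab.ofZ V1) (Fin.cons p (ini τ hv)) (g p) (x.pd p hp) (by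
      filter_upwards [x.ms p hp] with k hk w w' hw hw' hZ hV _
      exact hk w w' hw hw' hZ hV) 0 (fun _ _ => b) (x.big p hp) η hη

end

/-! ### extensions and other versions of the point -/

/-- extensions -/
theorem CutF_pull {V : ∀ k, Setoid (S.F k).Ω} {Q : S.VV N} {σ : Fin v → Fin N} {b : ℝ}
    {g : Fin N → ∀ k, (S.F k).Ω → Matrix (Mon (v + 1) D) (Mon (v + 1) D) ℝ} (x : CutF V Q σ b D g) (p : Pj T S) :
    CutF (p.pb V) (p.vv Q) σ b D (fun i k ω => g i k (p.π k ω)) where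
  inj := x.inj
  full := by
    refine x.full.congr fun k => ?_
    have e1 := (p.fp k).h_map (fc (Setoid.ker ((pck Q σ).cellv 1 k))) (fc (V k))
    have e2 : (p.fp k).map (fc (Setoid.ker ((pck Q σ).cellv 1 k))) = fc (Setoid.ker ((pck (p.vv Q) σ).cellv 1 k)) := by
      have e3 : (pck (p.vv Q) σ).cellv 1 k = fun ω => (pck Q σ).cellv 1 k (p.π k ω) := vv_cellv p (pck Q σ) 1 k
      rw [e3]
      rfl
    rw [e2] at e1
    rw [p.hn k, ← e1]
    rfl
  pd := fun i hi => by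
    filter_upwards [x.pd i hi] with k hk ω hω
    exact hk _ (p.supp k ω hω)
  ms := fun i hi => by
    filter_upwards [x.ms i hi] with k hk ω ω' hω hω' hZ hV
    exact hk _ _ (p.supp k ω hω) (p.supp k ω' hω') ((p.hZ k ω ω' hω hω').mp hZ) hV
  sm := fun i hi η hη => by
    have h1 := p.typ_iff.2 (x.sm i hi η hη)
    refine h1.mono (Eventually.of_forall fun k ω _ h2 => ?_)
    have e1 : T.dl 1 k = S.dl 1 k := by
      unfold Sp.dl
      rw [p.hn k]
    rw [e1, p.hn k]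
    exact h2
  big := fun i hi η hη => by
    have h1 := p.typ_iff.2 (x.big i hi η hη)
    refine h1.mono (Eventually.of_forall fun k ω _ h2 => ?_)
    have e1 : T.dl 1 k = S.dl 1 k := by
      unfold Sp.dl
      rw [p.hn k]
    rw [e1, p.hn k]
    exact h2

/-- another version of the point, partition and forms on the support -/
theorem CutF_congr {V V' : ∀ k, Setoid (S.F k).Ω} {Q Q' : S.VV N} {σ : Fin v → Fin N} {b : ℝ}
    {g g' : Fin N → ∀ k, (S.F k).Ω → Matrix (Mon (v + 1) D) (Mon (v + 1) D) ℝ} (x : CutF V Q σ b D g)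
    (hQ : ∀ᶠ k in UF, ∀ ω, (S.F k).μ ω ≠ 0 → Q'.v k ω = Q.v k ω)
    (hV : ∀ᶠ k in UF, ∀ ω ω', (S.F k).μ ω ≠ 0 → (S.F k).μ ω' ≠ 0 → (S.F k).Z ω ω' → (V' k ω ω' ↔ V k ω ω'))
    (hg : ∀ i, ∀ᶠ k in UF, ∀ ω, (S.F k).μ ω ≠ 0 → g' i k ω = g i k ω) : CutF V' Q' σ b D g' where
  inj := x.inj
  full := by
    refine x.full.congr' ?_
    filter_upwards [hQ, hV] with k h1 h2
    have e0 : (fc (V' k) : FL (S.F k)) = fc (V k) := by
      apply le_antisymm
      · exact fc_le fun ω ω' a b c h3 => (h2 ω ω' a b c).2 h3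
      · exact fc_le fun ω ω' a b c h3 => (h2 ω ω' a b c).1 h3
    rw [e0]
    have e1 : (fc (Setoid.ker ((pck Q' σ).cellv 1 k)) : FL (S.F k)) = fc (Setoid.ker ((pck Q σ).cellv 1 k)) := by
      have e2 : ∀ ω, (S.F k).μ ω ≠ 0 → (pck Q' σ).cellv 1 k ω = (pck Q σ).cellv 1 k ω := by
        intro ω hω
        funext i
        show ⌊Q'.v k ω (σ i) / S.dl 1 k⌋ = ⌊Q.v k ω (σ i) / S.dl 1 k⌋
        rw [h1 ω hω]
      apply le_antisymm
      · apply fc_le
        intro ω ω' a b _ h3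
        exact (e2 ω a).trans (Eq.trans h3 (e2 ω' b).symm)
      · apply fc_le
        intro ω ω' a b _ h3
        exact (e2 ω a).symm.trans (Eq.trans h3 (e2 ω' b))
    rw [e1]
  pd := fun i hi => by
    filter_upwards [x.pd i hi, hg i] with k hk h1 ω hω
    rw [h1 ω hω]
    exact hk ω hω
  ms := fun i hi => by
    filter_upwards [x.ms i hi, hg i, hV] with k hk h1 h2 ω ω' hω hω' hZ h3
    rw [h1 ω hω, h1 ω' hω']
    exact hk ω ω' hω hω' hZ ((h2 ω ω' hω hω' hZ).1 h3)
  sm := fun i hi η hη => by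
    refine (x.sm i hi η hη).mono ?_
    filter_upwards [hQ, hg i] with k h1 h2 ω hω h3
    rw [h2 ω hω]
    have e2 : (pck Q' (Fin.cons i σ : Fin (v + 1) → Fin N)).v k ω =
        (pck Q (Fin.cons i σ : Fin (v + 1) → Fin N)).v k ω := by
      funext j
      show Q'.v k ω _ = Q.v k ω _
      rw [h1 ω hω]
    rw [e2]
    exact h3
  big := fun i hi η hη => by
    refine (x.big i hi η hη).mono ?_
    filter_upwards [hQ, hg i] with k h1 h2 ω hω h3
    rw [h2 ω hω]
    have e2 : (pck Q' (Fin.cons i σ : Fin (v + 1) → Fin N)).v k ω =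
        (pck Q (Fin.cons i σ : Fin (v + 1) → Fin N)).v k ω := by
      funext j
      show Q'.v k ω _ = Q.v k ω _
      rw [h1 ω hω]
    rw [e2]
    exact h3

end

end Pool.Agent.Helper81.CP2
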