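import Pool.Agent.Helper76.DIM.Dim
import Pool.Agent.Helper80.NSL.H1d

/-! COPIES OF LABELS, part 2: rows over a label. Entropies of the digits of level one of the point given a partition,
coordinate by coordinate. -/

set_option autoImplicit false

namespace Pool.Agent.Helper81.CP2

open Finset Filter Topology Matrix Pool.Agent.Helper69.RK Pool.Agent.Helper31.EC Pool.Agent.Helper31.EC.Sp
open Pool.Agent.Helper40.EL Pool.Agent.Helper84.MT Pool.Agent.Helper89.LX Pool.Agent.Helper3.LF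
open Pool.Agent.Helper95.LF (PdM)
open Pool.Agent.Helper76.DIM (pck)
open Pool.Agent.Helper80.NSL (zl)

noncomputable section

variable {S T : Sp} {N v : ℕ}

/-- the coordinates `τ_0, .., τ_j` -/
def pre (τ : Fin N → Fin N) (j : Fin N) : Fin ((j : ℕ) + 1) → Fin N := fun i => τ ⟨i, lt_of_lt_of_le i.2 j.2⟩

/-- the coordinates `τ_i`, `i < v` -/
def ini (τ : Fin N → Fin N) (hv : v ≤ N) : Fin v → Fin N := fun i => τ (Fin.castLE hv i)

/-- ROWS OVER THE LABEL `W`: for every `j` with `v ≤ j < N` a form `A j` in the coordinates `τ_0, .., τ_j` which is known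
to the label, small at the point, with mean remaining exponent at most `a j` in the direction of `τ_j`; the numbers
`v + ∑ a j` are at most the rate of the entropy of the point given the label, up to `ε` -/
structure Rows (Q : S.VV N) (τ : Fin N → Fin N) (v : ℕ) (W : Lab S) (D : Fin N → ℕ)
    (A : ∀ (j : Fin N) (k : ℕ), (W k).T.Ω → Matrix (Mon ((j : ℕ) + 1) (D j)) (Mon ((j : ℕ) + 1) (D j)) ℝ)
    (a : Fin N → ℝ) (ε : ℝ) : Prop where
  D1 : ∀ j : Fin N, v ≤ j → 1 ≤ D j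
  cap : ∀ j : Fin N, v ≤ j → ∃ C : ℝ, 0 ≤ C ∧ ∀ᶠ k in UF, ∀ w, (W k).T.μ w ≠ 0 → Cpd (2 ^ (C * (S.F k).n)) (A j k w)
  ms : ∀ j : Fin N, v ≤ j → ∀ᶠ k in UF, ∀ w w', (W k).T.μ w ≠ 0 → (W k).T.μ w' ≠ 0 → (W k).V w w' →
    (W k).T.Z w w' → A j k w = A j k w'
  sm : ∀ j : Fin N, v ≤ j → ∀ η : ℝ, 0 < η → Typ (S := W.sp) (fun k (w : (W k).T.Ω) =>
    phi (S.dl 1 k) (A j k w) ((pck Q (pre τ j)).v k ((W k).p.π w)) ≤ 2 ^ (η * (S.F k).n))
  num : ∀ j : Fin N, v ≤ j → ∀ e : ℝ, 0 < e → ∀ᶠ k in UF,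
    ∑ w, (W k).T.μ w * max (1 - zl W (pck Q (pre τ j)) (A j) (Fin.last j) k w) 0 ≤ a j + e
  bud : ∀ e : ℝ, 0 < e → ∀ᶠ k in UF, (v + ∑ j ∈ univ.filter (fun j : Fin N => v ≤ j), a j - ε - e) * (S.F k).n ≤
    h ((W k).p.map (pcd Q k)) (W k).v

/-! ### the chain of coordinates -/

/-- the cells of the coordinates `τ_i`, `i < j` -/
def pfx (Q : S.VV N) (τ : Fin N → Fin N) (j : ℕ) (k : ℕ) (ω : (S.F k).Ω) : Fin N → ℤ :=
  fun i => if (i : ℕ) < j then ⌊Q.v k ω (τ i) / S.dl 1 k⌋ else 0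

/-- the cell of the coordinate `τ_j` -/
def sfx (Q : S.VV N) (τ : Fin N → Fin N) (j : Fin N) (k : ℕ) (ω : (S.F k).Ω) : ℤ := ⌊Q.v k ω (τ j) / S.dl 1 k⌋

theorem pfx_succ (Q : S.VV N) (τ : Fin N → Fin N) (j : Fin N) (k : ℕ) :
    (fc (Setoid.ker (pfx Q τ ((j : ℕ) + 1) k)) : FL (S.F k)) ≤
      fc (Setoid.ker (sfx Q τ j k)) ⊔ fc (Setoid.ker (pfx Q τ j k)) := by
  rw [← fc_inf]
  apply fc_mono
  intro ω ω' h
  have h1 : sfx Q τ j k ω = sfx Q τ j k ω' := h.1
  have h2 : pfx Q τ j k ω = pfx Q τ j k ω' := h.2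
  show pfx Q τ ((j : ℕ) + 1) k ω = pfx Q τ ((j : ℕ) + 1) k ω'
  funext i
  have h3 := congrFun h2 i
  unfold pfx at h3 ⊢
  by_cases hi : (i : ℕ) < (j : ℕ) + 1
  · rw [if_pos hi, if_pos hi]
    by_cases hj : (i : ℕ) < j
    · rwa [if_pos hj, if_pos hj] at h3
    · have e1 : i = j := Fin.ext (by omega)
      rw [e1]
      exact h1
  · rw [if_neg hi, if_neg hi]

/-- CHAIN RULE from `v` to `N` -/
theorem chain_pfx (Q : S.VV N) (τ : Fin N → Fin N) (V : ∀ k, Setoid (S.F k).Ω) (b : Fin N → ℝ) (k : ℕ)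
    (hb : ∀ j : Fin N, v ≤ j → h (fc (Setoid.ker (sfx Q τ j k))) (fc (V k) ⊔ fc (Setoid.ker (pfx Q τ j k))) ≤ b j)
    (hv : v ≤ N) : h (fc (Setoid.ker (pfx Q τ N k))) (fc (V k)) ≤ h (fc (Setoid.ker (pfx Q τ v k))) (fc (V k)) +
      ∑ j ∈ univ.filter (fun j : Fin N => v ≤ j), b j := by
  have key : ∀ m : ℕ, v ≤ m → m ≤ N → h (fc (Setoid.ker (pfx Q τ m k))) (fc (V k)) ≤
      h (fc (Setoid.ker (pfx Q τ v k))) (fc (V k)) +
        ∑ j ∈ univ.filter (fun j : Fin N => v ≤ j ∧ (j : ℕ) < m), b j := by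
    intro m hm
    induction m, hm using Nat.le_induction with
    | base =>
      intro _
      have e1 : univ.filter (fun j : Fin N => v ≤ j ∧ (j : ℕ) < v) = ∅ := by
        apply Finset.filter_eq_empty_iff.mpr
        rintro j _ ⟨h1, h2⟩
        omega
      rw [e1, Finset.sum_empty, add_zero]
    | succ m hm ih =>
      intro hmN
      have h1 := ih (by omega)
      set j : Fin N := ⟨m, hmN⟩ with hj
      have h2 : h (fc (Setoid.ker (pfx Q τ (m + 1) k))) (fc (V k)) ≤ h (fc (Setoid.ker (pfx Q τ m k))) (fc (V k)) +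
          h (fc (Setoid.ker (sfx Q τ j k))) (fc (V k) ⊔ fc (Setoid.ker (pfx Q τ m k))) := by
        refine (h_mono (pfx_succ Q τ j k)).trans ?_
        rw [sup_comm, h_chain, sup_comm (fc (V k))]
      have h3 := hb j hm
      have e1 : univ.filter (fun i : Fin N => v ≤ i ∧ (i : ℕ) < m + 1) =
          insert j (univ.filter (fun i : Fin N => v ≤ i ∧ (i : ℕ) < m)) := by
        ext i
        rw [Finset.mem_insert, Finset.mem_filter, Finset.mem_filter]
        constructor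
        · rintro ⟨_, h4, h5⟩
          by_cases h6 : (i : ℕ) < m
          · exact Or.inr ⟨Finset.mem_univ _, h4, h6⟩
          · exact Or.inl (Fin.ext (by show (i : ℕ) = m; omega))
        · rintro (h4 | ⟨_, h4, h5⟩)
          · rw [h4]
            exact ⟨Finset.mem_univ _, hm, Nat.lt_succ_self m⟩
          · exact ⟨Finset.mem_univ _, h4, by omega⟩
      have hnot : j ∉ univ.filter (fun i : Fin N => v ≤ i ∧ (i : ℕ) < m) := by
        rw [Finset.mem_filter]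
        rintro ⟨_, _, h5⟩
        exact lt_irrefl m h5
      rw [e1, Finset.sum_insert hnot]
      linarith
  have h1 := key N hv le_rfl
  have e1 : univ.filter (fun j : Fin N => v ≤ j ∧ (j : ℕ) < N) = univ.filter (fun j : Fin N => v ≤ j) := by
    ext j
    rw [Finset.mem_filter, Finset.mem_filter]
    exact ⟨fun h => ⟨h.1, h.2.1⟩, fun h => ⟨h.1, h.2, j.2⟩⟩
  rw [e1] at h1
  exact h1

/-- all coordinates -/
theorem pfx_all (Q : S.VV N) (τ : Fin N → Fin N) (hτ : Function.Surjective τ) (k : ℕ) :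
    pcd Q k ≤ fc (Setoid.ker (pfx Q τ N k)) := by
  apply fc_mono
  intro ω ω' h
  have h2 : pfx Q τ N k ω = pfx Q τ N k ω' := h
  show Q.cellv 1 k ω = Q.cellv 1 k ω'
  funext p
  obtain ⟨i, rfl⟩ := hτ p
  have h3 := congrFun h2 i
  unfold pfx at h3
  rw [if_pos i.2, if_pos i.2] at h3
  exact h3

/-- the first coordinates -/
theorem pfx_ini (Q : S.VV N) (τ : Fin N → Fin N) (hv : v ≤ N) (k : ℕ) :
    (fc (Setoid.ker (pfx Q τ v k)) : FL (S.F k)) ≤ fc (Setoid.ker ((pck Q (ini τ hv)).cellv 1 k)) := by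
  apply fc_mono
  intro ω ω' h
  have h2 : (pck Q (ini τ hv)).cellv 1 k ω = (pck Q (ini τ hv)).cellv 1 k ω' := h
  show pfx Q τ v k ω = pfx Q τ v k ω'
  funext i
  unfold pfx
  by_cases hi : (i : ℕ) < v
  · rw [if_pos hi, if_pos hi]
    exact congrFun h2 ⟨i, hi⟩
  · rw [if_neg hi, if_neg hi]

end

end Pool.Agent.Helper81.CP2
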