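import Pool.Agent.Helper81.CP2.Grd
import Pool.Agent.Helper81.CP2.Rw

/-! COPIES OF LABELS, part 3: the old point given the copied label. Rows over the label give the entropy of the first
coordinates of the OLD point given the copied label. -/

set_option autoImplicit false

namespace Pool.Agent.Helper81.CP2

open Finset Filter Topology Matrix Pool.Agent.Helper69.RK Pool.Agent.Helper31.EC Pool.Agent.Helper31.EC.Sp
open Pool.Agent.Helper40.EL Pool.Agent.Helper84.MT Pool.Agent.Helper89.LX Pool.Agent.Helper3.LF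
open Pool.Agent.Helper95.LF (PdM)
open Pool.Agent.Helper76.DIM (pck)
open Pool.Agent.Helper80.NSL (zl h1d)
open Pool.Agent.Helper4.VZ (zex zc pc)
open Pool.Agent.Helper81.CPY

noncomputable section

variable {S T : Sp} {N v : ℕ} {E : ℕ → ℕ}

/-- the space of the copy of a label given the window `0` of a leaf -/
abbrev cR0 {Q : S.VV N} (l : Leaf S Q E) (W : Lab S) : Sp := (cpl W (wnC l 0)).sp

/-- the copied label, as a partition -/
abbrev cV0 {Q : S.VV N} (l : Leaf S Q E) (W : Lab S) : ∀ k, Setoid ((cR0 l W).F k).Ω :=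
  (cpl W (wnC l 0)).p2.pb W.V

/-- the projection onto the old space -/
abbrev cP0 {Q : S.VV N} (l : Leaf S Q E) (W : Lab S) : Pj (cR0 l W) S := (cpl W (wnC l 0)).p1

section

variable {Q : S.VV N} (l : Leaf S Q E) (W : Lab S) (hL : Nul S (fun k => (W k).leak (l.win 0 k)))
  {τ : Fin N → Fin N} {D : Fin N → ℕ}
  {A : ∀ (j : Fin N) (k : ℕ), (W k).T.Ω → Matrix (Mon ((j : ℕ) + 1) (D j)) (Mon ((j : ℕ) + 1) (D j)) ℝ}
  {a : Fin N → ℝ} {ε : ℝ} (hR : Rows Q τ v W D A a ε)

include hL hR in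
/-- ONE ROW at the old point -/
theorem row_old (j : Fin N) (hj : v ≤ j) (e : ℝ) (he : 0 < e) : ∀ᶠ k in UF,
    h (fc (Setoid.ker (sfx ((cP0 l W).vv Q) τ j k))) (fc (cV0 l W k) ⊔ fc (Setoid.ker (pfx ((cP0 l W).vv Q) τ j k))) ≤
      (a j + e) * (S.F k).n := by
  obtain ⟨C, hC, hcap⟩ := hR.cap j hj
  have hpd : ∀ᶠ k in UF, ∀ w, (W k).T.μ w ≠ 0 → PdM (A j k w) := by
    filter_upwards [hcap] with k hk w hw
    exact (hk w hw).pdM
  have hms : ∀ᶠ k in UF, ∀ w w', (W k).T.μ w ≠ 0 → (W k).T.μ w' ≠ 0 → (W k).T.Z w w' → (W k).V w w' →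
      l.La k ((W k).p.π w) ((W k).p.π w') → A j k w = A j k w' := by
    filter_upwards [hR.ms j hj] with k hk w w' hw hw' hZ hV _
    exact hk w w' hw hw' hV hZ
  have hsm : ∀ η : ℝ, 0 < η → Typ (S := cR0 l W) (fun k w =>
      phi (S.dl 1 k) (A j k w.2) ((pck Q (pre τ j)).v k w.1) ≤ 2 ^ (η * (S.F k).n)) :=
    fun η hη => sm_old l le_rfl one_pos W hL (pre τ j) (A j) hpd hms (hR.sm j hj) η hη
  have hbig := big_old l le_rfl one_pos W (pre τ j) (A j) hpd hms (Fin.last j)
    (fun k w => zl W (pck Q (pre τ j)) (A j) (Fin.last j) k w) (by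
      intro η hη
      refine Typ.mono (S := W.sp) Typ_true ?_
      filter_upwards [hpd] with k hk w hw _
      have hn := (S.F k).pos
      have h1 : 0 < 1 + Jq (S.dl 1 k) (A j k w) ((pck Q (pre τ j)).v k ((W k).p.π w)) (Fin.last j) (Fin.last j) :=
        add_pos_of_pos_of_nonneg one_pos (J_nn _ (hk w hw) _ _)
      have h2 : (2 : ℝ) ^ (2 * zl W (pck Q (pre τ j)) (A j) (Fin.last j) k w * (S.F k).n) =
          1 + Jq (S.dl 1 k) (A j k w) ((pck Q (pre τ j)).v k ((W k).p.π w)) (Fin.last j) (Fin.last j) := by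
        have e1 : 2 * zl W (pck Q (pre τ j)) (A j) (Fin.last j) k w * (S.F k).n = Real.logb 2
            (1 + Jq (S.dl 1 k) (A j k w) ((pck Q (pre τ j)).v k ((W k).p.π w)) (Fin.last j) (Fin.last j)) := by
          unfold zl
          field_simp
        rw [e1, Real.rpow_logb (by norm_num) (by norm_num) h1]
      rw [← h2]
      apply Real.rpow_le_rpow_of_exponent_le (by norm_num)
      apply mul_le_mul_of_nonneg_right _ hn.le
      linarith)
  have hw : ∀ e : ℝ, 0 < e → Typ (S := cR0 l W) (fun k w =>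
      zl W (pck Q (pre τ j)) (A j) (Fin.last j) k w.2 - e ≤
        zex (S := cR0 l W) (pck ((cP0 l W).vv Q) (pre τ j)) (fun k w => A j k w.2) (Fin.last j) k w) := by
    intro e he
    refine Typ.mono (S := cR0 l W) (hbig e he) ?_
    filter_upwards [hpd] with k hk w hw h3
    have hn := (S.F k).pos
    obtain ⟨b1, b2, -⟩ := wnC_agree l W k w hw
    have h1 : 0 < 1 + Jq (S.dl 1 k) (A j k w.2) ((pck Q (pre τ j)).v k w.1) (Fin.last j) (Fin.last j) :=
      add_pos_of_pos_of_nonneg one_pos (J_nn _ (hk w.2 b2) _ _)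
    show zl W (pck Q (pre τ j)) (A j) (Fin.last j) k w.2 - e ≤
      Real.logb 2 (1 + Jq (S.dl 1 k) (A j k w.2) ((pck Q (pre τ j)).v k w.1) (Fin.last j) (Fin.last j)) /
        (2 * (S.F k).n)
    rw [le_div_iff₀ (by positivity), Real.le_logb_iff_rpow_le (by norm_num) h1]
    refine le_trans (le_of_eq ?_) h3
    congr 1
    ring
  have hmain := h1d (S := cR0 l W) (hR.D1 j hj) (pck ((cP0 l W).vv Q) (pre τ j)) (Fin.last j) (cV0 l W)
    (fun k w => A j k w.2) C hC (by
      filter_upwards [hcap] with k hk w hw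
      exact hk w.2 (wnC_agree l W k w hw).2.1) (by
      filter_upwards [hR.ms j hj] with k hk w w' hw hw' hV hZ
      exact hk w.2 w'.2 (wnC_agree l W k w hw).2.1 (wnC_agree l W k w' hw').2.1 hV
        (((cpl W (wnC l 0)).p2.hZ k w w' hw hw').mp hZ)) hsm
    (fun k w => zl W (pck Q (pre τ j)) (A j) (Fin.last j) k w.2) hw 1 zero_le_one le_rfl
    (fun k => fc (Setoid.ker (sfx ((cP0 l W).vv Q) τ j k)))
    (fun k => fc (cV0 l W k) ⊔ fc (Setoid.ker (pfx ((cP0 l W).vv Q) τ j k))) (by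
      intro k
      apply fc_mono
      intro w w' h4
      have h5 : zc (S := cR0 l W) (pck ((cP0 l W).vv Q) (pre τ j)) (Fin.last j) 1 k w =
        zc (S := cR0 l W) (pck ((cP0 l W).vv Q) (pre τ j)) (Fin.last j) 1 k w' := h4
      exact h5) (by
      intro k
      apply sup_le_sup_left
      apply fc_mono
      intro w w' h4
      have h5 : pfx ((cP0 l W).vv Q) τ j k w = pfx ((cP0 l W).vv Q) τ j k w' := h4
      show pc (S := cR0 l W) (pck ((cP0 l W).vv Q) (pre τ j)) (Fin.last j) k w =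
        pc (S := cR0 l W) (pck ((cP0 l W).vv Q) (pre τ j)) (Fin.last j) k w'
      funext i
      unfold pc
      by_cases hi : i = Fin.last j
      · rw [if_pos hi, if_pos hi]
      · rw [if_neg hi, if_neg hi]
        have hi' : (i : ℕ) < j := by
          have h6 := i.2
          have h7 : (i : ℕ) ≠ j := fun h8 => hi (Fin.ext h8)
          omega
        have h6 := congrFun h5 ⟨i, hi'.trans j.2⟩
        unfold pfx at h6
        rw [if_pos hi', if_pos hi'] at h6
        exact h6) (e / 2) (by linarith)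
  filter_upwards [hmain, hR.num j hj (e / 2) (by linarith)] with k h1 h2
  have hn := (S.F k).pos
  have h3 : ∑ w, ((cR0 l W).F k).μ w * max (1 - zl W (pck Q (pre τ j)) (A j) (Fin.last j) k w.2) 0 =
      ∑ w, (W k).T.μ w * max (1 - zl W (pck Q (pre τ j)) (A j) (Fin.last j) k w) 0 :=
    Pool.Agent.Helper89.LX.sum_push ((cpl W (wnC l 0)).p2.fp k)
      (fun w => max (1 - zl W (pck Q (pre τ j)) (A j) (Fin.last j) k w) 0)
  have h4 := h1
  rw [h3] at h4
  refine h4.trans (mul_le_mul_of_nonneg_right ?_ hn.le)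
  linarith

include hL hR in
/-- ENTROPY OF THE FIRST COORDINATES of the old point given the copied label -/
theorem ini_old (hP : Nul S (fun k => (W k).leak (pcd Q k))) (hτ : Function.Surjective τ) (hv : v ≤ N) (e : ℝ)
    (he : 0 < e) : ∀ᶠ k in UF, (v - ε - e) * (S.F k).n ≤
      h (fc (Setoid.ker ((pck ((cP0 l W).vv Q) (ini τ hv)).cellv 1 k))) (fc (cV0 l W k)) := by
  set δ : ℝ := e / (N + 2) with hδ
  have hN : (0 : ℝ) < N + 2 := by positivity
  have hδ0 : 0 < δ := div_pos he hN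
  have h1 : ∀ᶠ k in UF, ∀ j : Fin N, v ≤ j → h (fc (Setoid.ker (sfx ((cP0 l W).vv Q) τ j k)))
      (fc (cV0 l W k) ⊔ fc (Setoid.ker (pfx ((cP0 l W).vv Q) τ j k))) ≤ (a j + δ) * (S.F k).n := by
    rw [Filter.eventually_all]
    intro j
    by_cases hj : v ≤ j
    · filter_upwards [row_old l W hL hR j hj δ hδ0] with k hk _
      exact hk
    · exact Eventually.of_forall fun k h => absurd h hj
  have hP' : Tendsto (fun k => (W k).leak (pcd Q k) / (S.F k).n) UF (𝓝 0) := hP
  filter_upwards [h1, hR.bud δ hδ0, hP'.eventually (gt_mem_nhds hδ0)] with k g1 g2 g3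
  have hn := (S.F k).pos
  rw [div_lt_iff₀ hn] at g3
  have g4 := cpLab_full W (wnC l 0) k (pcd Q k)
  have e1 : (cpLab W (wnC l 0) k).p.map (pcd Q k) = pcd ((cP0 l W).vv Q) k := by
    rw [pcd_pull]
    rfl
  rw [e1] at g4
  have g5 : h (pcd ((cP0 l W).vv Q) k) (fc (cV0 l W k)) ≤
      h (fc (Setoid.ker (pfx ((cP0 l W).vv Q) τ v k))) (fc (cV0 l W k)) +
        ∑ j ∈ univ.filter (fun j : Fin N => v ≤ j), (a j + δ) * (S.F k).n :=
    (h_mono (pfx_all ((cP0 l W).vv Q) τ hτ k)).trans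
      (chain_pfx ((cP0 l W).vv Q) τ (cV0 l W) (fun j => (a j + δ) * (S.F k).n) k g1 hv)
  have g6 : h (fc (Setoid.ker (pfx ((cP0 l W).vv Q) τ v k))) (fc (cV0 l W k)) ≤
      h (fc (Setoid.ker ((pck ((cP0 l W).vv Q) (ini τ hv)).cellv 1 k))) (fc (cV0 l W k)) :=
    h_mono (pfx_ini ((cP0 l W).vv Q) τ hv k)
  have g7 : ∑ j ∈ univ.filter (fun j : Fin N => v ≤ j), (a j + δ) * (S.F k).n ≤
      (∑ j ∈ univ.filter (fun j : Fin N => v ≤ j), a j + N * δ) * (S.F k).n := by
    rw [← Finset.sum_mul, Finset.sum_add_distrib]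
    apply mul_le_mul_of_nonneg_right _ hn.le
    have h2 : ∑ _j ∈ univ.filter (fun j : Fin N => v ≤ j), δ ≤ N * δ := by
      rw [Finset.sum_const, nsmul_eq_mul]
      apply mul_le_mul_of_nonneg_right _ hδ0.le
      have h3 := Finset.card_filter_le (univ : Finset (Fin N)) (fun j : Fin N => v ≤ j)
      rw [Finset.card_univ, Fintype.card_fin] at h3
      exact_mod_cast h3
    linarith
  have g8 : h ((W k).p.map (pcd Q k)) (W k).v - (W k).leak (pcd Q k) ≤
      h (fc (Setoid.ker ((pck ((cP0 l W).vv Q) (ini τ hv)).cellv 1 k))) (fc (cV0 l W k)) +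
        (∑ j ∈ univ.filter (fun j : Fin N => v ≤ j), a j + N * δ) * (S.F k).n :=
    g4.trans (g5.trans (add_le_add g6 g7))
  have g9 : (v - ε - e) * (S.F k).n = (v + ∑ j ∈ univ.filter (fun j : Fin N => v ≤ j), a j - ε - δ) * (S.F k).n -
      (∑ j ∈ univ.filter (fun j : Fin N => v ≤ j), a j + N * δ) * (S.F k).n - δ * (S.F k).n := by
    have h3 : e = (N + 2) * δ := by
      rw [hδ]
      field_simp
    rw [h3]
    ring
  rw [g9]
  linarith

end

end

end Pool.Agent.Helper81.CP2
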