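import Pool.Agent.Helper81.CPY.Tcp
import Pool.Agent.Helper76.DIM.Dim

/-! COPIES OF LABELS, part 1: choices of coordinates of a leaf; the gradients of the copied forms at the OLD point are
typically not smaller than at the point of the copy. -/

set_option autoImplicit false

namespace Pool.Agent.Helper81.CP2

open Finset Filter Topology Matrix Pool.Agent.Helper69.RK Pool.Agent.Helper31.EC Pool.Agent.Helper31.EC.Sp
open Pool.Agent.Helper40.EL Pool.Agent.Helper84.MT Pool.Agent.Helper89.LX Pool.Agent.Helper3.LF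
open Pool.Agent.Helper95.LF (PdM)
open Pool.Agent.Helper76.DIM (pck)
open Pool.Agent.Helper81.CPY

noncomputable section

variable {S T : Sp} {M D m : ℕ} {E : ℕ → ℕ}

/-- a choice of coordinates of a leaf -/
def lpk {Q : S.VV M} (l : Leaf S Q E) (σ : Fin m → Fin M) : Leaf S (pck Q σ) E where
  e := l.e
  he := l.he
  La := l.La
  Y := l.Y
  F := fun k ω y j => l.F k ω y (σ j)
  fn := by
    filter_upwards [l.fn] with k hk ω ω' a b c d
    rw [hk ω ω' a b c d]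
  bd := by
    obtain ⟨K, hK, h⟩ := l.bd
    exact ⟨K, hK, by filter_upwards [h] with k hk ω hω y hy j using hk ω hω y hy (σ j)⟩
  al := l.al
  alg := l.alg
  crF := by
    filter_upwards [l.crF] with k hk ω hω j
    exact hk ω hω (σ j)
  seg := l.seg
  pt := by
    obtain ⟨K, hK, h⟩ := l.pt
    exact ⟨K, hK, by filter_upwards [h] with k hk ω hω j using hk ω hω (σ j)⟩
  full := l.full

theorem lpk_win {Q : S.VV M} (l : Leaf S Q E) (σ : Fin m → Fin M) (c : ℝ) : (lpk l σ).win c = l.win c := rfl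

theorem lpk_wnC {Q : S.VV M} (l : Leaf S Q E) (σ : Fin m → Fin M) (c : ℝ) : wnC (lpk l σ) c = wnC l c := rfl

/-- the quadratic form of `J` in a coordinate direction -/
theorem sgl_J (r : ℝ) (A : Matrix (Mon M D) (Mon M D) ℝ) (p : Fin M → ℝ) (z : Fin M) :
    (Pi.single z (1 : ℝ)) ⬝ᵥ (Jq r A p *ᵥ (Pi.single z (1 : ℝ))) = Jq r A p z z := by
  rw [Matrix.mulVec_single_one, single_one_dotProduct]
  rfl

theorem J_nn (r : ℝ) {A : Matrix (Mon M D) (Mon M D) ℝ} (hA : PdM A) (p : Fin M → ℝ) (z : Fin M) :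
    0 ≤ Jq r A p z z := by
  rw [← sgl_J]
  exact Jq_nonneg r hA.nonneg p _

/-- `1 + J` at neighbouring points -/
theorem J_comp {A : Matrix (Mon M D) (Mon M D) ℝ} (hA : PdM A) {r K : ℝ} (hr : 0 < r) (hK : 1 ≤ K)
    (p p' : Fin M → ℝ) (hp : ∀ i, |p' i - p i| + r ≤ K * r) (z : Fin M) :
    1 + Jq r A p' z z ≤ (cQ M D * K ^ (2 * D)) * (1 + Jq r A p z z) := by
  have h1 := Jq_comp' A hA r r K hr hr.le hK p p' hp (Pi.single z (1 : ℝ))
  rw [sgl_J, sgl_J] at h1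
  have h2 : 1 ≤ cQ M D * K ^ (2 * D) := one_le_mul_of_one_le_of_one_le (cQ_one M D) (one_le_pow₀ hK)
  rw [mul_add, mul_one]
  exact add_le_add h2 h1

theorem cJ_Sub {K : ℕ → ℝ} (hK : S.Sub K) (hK1 : ∀ᶠ k in UF, 1 ≤ K k) : S.Sub fun k => cQ M D * K k ^ (2 * D) :=
  (S.Sub_const (zero_le_one.trans (cQ_one M D))).mul (Sub_pow' hK _)

theorem J_mem (r : ℝ) (A : Matrix (Mon M D) (Mon M D) ℝ) (z : Fin M) :
    (fun p => 1 + Jq r A p z z) ∈ polyAl M 1 (D + D) :=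
  (pol_alg M).add _ _ _ ((pol_alg M).const' _ _) (Jq_mem r A z z)

/-- GRADIENTS: `1 + J_zz` of the copied form at the old point is typically not smaller than at the point of the copy -/
theorem cpl_J {Q : S.VV M} (l : Leaf S Q E) {c : ℝ} (h0 : 0 ≤ c) (h1 : c < 1) (L : Lab S)
    (A : ∀ k, (L k).T.Ω → Matrix (Mon M D) (Mon M D) ℝ) (hA : ∀ᶠ k in UF, ∀ w, (L k).T.μ w ≠ 0 → PdM (A k w))
    (hm : ∀ᶠ k in UF, ∀ w w', (L k).T.μ w ≠ 0 → (L k).T.μ w' ≠ 0 → (L k).T.Z w w' → (L k).V w w' →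
      l.La k ((L k).p.π w) ((L k).p.π w') → A k w = A k w') (z : Fin M) :
    ∃ K' : ℕ → ℝ, S.Sub K' ∧ Typ (S := (cpl L (wnC l c)).sp) (fun k w =>
      1 + Jq (S.dl 1 k) (A k w.2) (Q.v k ((L k).p.π w.2)) z z ≤
        K' k * (1 + Jq (S.dl 1 k) (A k w.2) (Q.v k w.1) z z)) := by
  obtain ⟨K1, hK1, hT⟩ := cpl_pol' l L (D := D + D) (fun k w p => 1 + Jq (S.dl 1 k) (A k w) p z z)
    (Eventually.of_forall fun k w _ => J_mem _ _ z) (κ := fun _ => 1) (S.Sub_const zero_le_one) (by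
      filter_upwards [hm] with k hk w w' hw hw' hZ hV hLa _ p
      rw [hk w w' hw hw' hZ hV hLa, one_mul]) h0 h1
  obtain ⟨K2, hK2, hK21, hn⟩ := pt_near l
  refine ⟨fun k => cQ M D * K2 k ^ (2 * D) * (K1 k * (cQ M D * K2 k ^ (2 * D))),
    (cJ_Sub hK2 hK21).mul (hK1.mul (cJ_Sub hK2 hK21)), hT.mono ?_⟩
  filter_upwards [hA, hK21, hn, hK1.1] with k g1 g3 g4 g7 w hw g6
  obtain ⟨a1, a2, a3, a4, a5, a6⟩ := wnC_agree l L k w hw
  have hP : PdM (A k w.2) := g1 w.2 a2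
  have n1 : ∀ p, 0 ≤ 1 + Jq (S.dl 1 k) (A k w.2) p z z := fun p => add_nonneg zero_le_one (J_nn _ hP p z)
  rw [abs_of_nonneg (n1 _), abs_of_nonneg (n1 _)] at g6
  have b1 : 1 + Jq (S.dl 1 k) (A k w.2) (Q.v k ((L k).p.π w.2)) z z ≤ cQ M D * K2 k ^ (2 * D) *
      (1 + Jq (S.dl 1 k) (A k w.2) (l.F k ((L k).p.π w.2) (l.Y.v k ((L k).p.π w.2))) z z) :=
    J_comp hP (S.dl_pos 1 k) g3 _ _ (fun i => (g4 _ a3 i).1) z
  have b2 : 1 + Jq (S.dl 1 k) (A k w.2) (l.F k w.1 (l.Y.v k w.1)) z z ≤ cQ M D * K2 k ^ (2 * D) *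
      (1 + Jq (S.dl 1 k) (A k w.2) (Q.v k w.1) z z) :=
    J_comp hP (S.dl_pos 1 k) g3 _ _ (fun i => (g4 _ a1 i).2) z
  have c0 : 0 ≤ cQ M D * K2 k ^ (2 * D) := mul_nonneg (zero_le_one.trans (cQ_one M D)) (pow_nonneg (by linarith) _)
  have b3 := mul_le_mul_of_nonneg_left (g6.trans (mul_le_mul_of_nonneg_left b2 g7)) c0
  refine (b1.trans b3).trans (le_of_eq ?_)
  ring

/-- the same for a choice of coordinates -/
theorem cpl_Jk {Q : S.VV M} (l : Leaf S Q E) {c : ℝ} (h0 : 0 ≤ c) (h1 : c < 1) (L : Lab S) (σ : Fin m → Fin M)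
    (A : ∀ k, (L k).T.Ω → Matrix (Mon m D) (Mon m D) ℝ) (hA : ∀ᶠ k in UF, ∀ w, (L k).T.μ w ≠ 0 → PdM (A k w))
    (hm : ∀ᶠ k in UF, ∀ w w', (L k).T.μ w ≠ 0 → (L k).T.μ w' ≠ 0 → (L k).T.Z w w' → (L k).V w w' →
      l.La k ((L k).p.π w) ((L k).p.π w') → A k w = A k w') (z : Fin m) :
    ∃ K' : ℕ → ℝ, S.Sub K' ∧ Typ (S := (cpl L (wnC l c)).sp) (fun k w =>
      1 + Jq (S.dl 1 k) (A k w.2) ((pck Q σ).v k ((L k).p.π w.2)) z z ≤
        K' k * (1 + Jq (S.dl 1 k) (A k w.2) ((pck Q σ).v k w.1) z z)) :=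
  cpl_J (lpk l σ) h0 h1 L A hA hm z

/-- containment at the old point for a choice of coordinates -/
theorem cpl_phik {Q : S.VV M} (l : Leaf S Q E) {c : ℝ} (h0 : 0 ≤ c) (h1 : c < 1) (L : Lab S)
    (hL : Nul S (fun k => (L k).leak (l.win c k))) (σ : Fin m → Fin M)
    (A : ∀ k, (L k).T.Ω → Matrix (Mon m D) (Mon m D) ℝ) (hA : ∀ᶠ k in UF, ∀ w, (L k).T.μ w ≠ 0 → PdM (A k w))
    (hm : ∀ᶠ k in UF, ∀ w w', (L k).T.μ w ≠ 0 → (L k).T.μ w' ≠ 0 → (L k).T.Z w w' → (L k).V w w' →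
      l.La k ((L k).p.π w) ((L k).p.π w') → A k w = A k w') :
    ∃ K' : ℕ → ℝ, S.Sub K' ∧ Typ (S := (cpl L (wnC l c)).sp) (fun k w =>
      phi (S.dl 1 k) (A k w.2) ((pck Q σ).v k w.1) ≤
        K' k * phi (S.dl 1 k) (A k w.2) ((pck Q σ).v k ((L k).p.π w.2))) :=
  cpl_phi (lpk l σ) h0 h1 L hL A hA hm

/-! ### typical bounds -/

/-- small forms at the point of the copy are small at the old point -/
theorem sm_old {Q : S.VV M} (l : Leaf S Q E) {c : ℝ} (h0 : 0 ≤ c) (h1 : c < 1) (L : Lab S)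
    (hL : Nul S (fun k => (L k).leak (l.win c k))) (σ : Fin m → Fin M)
    (A : ∀ k, (L k).T.Ω → Matrix (Mon m D) (Mon m D) ℝ) (hA : ∀ᶠ k in UF, ∀ w, (L k).T.μ w ≠ 0 → PdM (A k w))
    (hm : ∀ᶠ k in UF, ∀ w w', (L k).T.μ w ≠ 0 → (L k).T.μ w' ≠ 0 → (L k).T.Z w w' → (L k).V w w' →
      l.La k ((L k).p.π w) ((L k).p.π w') → A k w = A k w')
    (hs : ∀ η : ℝ, 0 < η → Typ (S := L.sp) fun k (w : (L k).T.Ω) =>
      phi (S.dl 1 k) (A k w) ((pck Q σ).v k ((L k).p.π w)) ≤ 2 ^ (η * (S.F k).n)) (η : ℝ) (hη : 0 < η) :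
    Typ (S := (cpl L (wnC l c)).sp) (fun k w =>
      phi (S.dl 1 k) (A k w.2) ((pck Q σ).v k w.1) ≤ 2 ^ (η * (S.F k).n)) := by
  obtain ⟨K, hK, hT⟩ := cpl_phik l h0 h1 L hL σ A hA hm
  have h2 : Typ (S := (cpl L (wnC l c)).sp) fun k w =>
      phi (S.dl 1 k) (A k w.2) ((pck Q σ).v k ((L k).p.π w.2)) ≤ 2 ^ (η / 2 * (S.F k).n) :=
    (cpl L (wnC l c)).p2.typ_iff.2 (hs (η / 2) (by linarith))
  refine (hT.and h2).mono ?_
  filter_upwards [hK.eventually_le (show 0 < η / 2 by linarith), hA] with k hk hk0 w hw hw'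
  have hP : PdM (A k w.2) := hk0 w.2 (wnC_agree l L k w hw).2.1
  refine hw'.1.trans ((mul_le_mul (show K k ≤ 2 ^ (η / 2 * (S.F k).n) by linarith) hw'.2 (phi_nonneg _ (fun x => hP.nonneg x) _) (by positivity)).trans
    (le_of_eq ?_))
  rw [← Real.rpow_add (by norm_num)]
  congr 1
  ring

/-- large gradients at the point of the copy are large at the old point: `u` any function of the point of the copy -/
theorem big_old {Q : S.VV M} (l : Leaf S Q E) {c : ℝ} (h0 : 0 ≤ c) (h1 : c < 1) (L : Lab S) (σ : Fin m → Fin M)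
    (A : ∀ k, (L k).T.Ω → Matrix (Mon m D) (Mon m D) ℝ) (hA : ∀ᶠ k in UF, ∀ w, (L k).T.μ w ≠ 0 → PdM (A k w))
    (hm : ∀ᶠ k in UF, ∀ w w', (L k).T.μ w ≠ 0 → (L k).T.μ w' ≠ 0 → (L k).T.Z w w' → (L k).V w w' →
      l.La k ((L k).p.π w) ((L k).p.π w') → A k w = A k w') (z : Fin m) (u : ∀ k, (L k).T.Ω → ℝ)
    (hs : ∀ η : ℝ, 0 < η → Typ (S := L.sp) fun k (w : (L k).T.Ω) =>
      2 ^ (2 * (u k w - η) * (S.F k).n) ≤ 1 + Jq (S.dl 1 k) (A k w) ((pck Q σ).v k ((L k).p.π w)) z z) (η : ℝ)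
    (hη : 0 < η) : Typ (S := (cpl L (wnC l c)).sp) (fun k w =>
      2 ^ (2 * (u k w.2 - η) * (S.F k).n) ≤ 1 + Jq (S.dl 1 k) (A k w.2) ((pck Q σ).v k w.1) z z) := by
  obtain ⟨K, hK, hT⟩ := cpl_Jk l h0 h1 L σ A hA hm z
  have h2 : Typ (S := (cpl L (wnC l c)).sp) fun k w => 2 ^ (2 * (u k w.2 - η / 2) * (S.F k).n) ≤
      1 + Jq (S.dl 1 k) (A k w.2) ((pck Q σ).v k ((L k).p.π w.2)) z z :=
    (cpl L (wnC l c)).p2.typ_iff.2 (hs (η / 2) (by linarith))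
  refine (hT.and h2).mono ?_
  filter_upwards [hK.eventually_le hη, hA] with k hk hk0 w hw hw'
  have hP : PdM (A k w.2) := hk0 w.2 (wnC_agree l L k w hw).2.1
  have h3 : 0 ≤ 1 + Jq (S.dl 1 k) (A k w.2) ((pck Q σ).v k w.1) z z :=
    add_nonneg zero_le_one (J_nn _ hP _ z)
  have h4 := (hw'.2.trans hw'.1).trans (mul_le_mul_of_nonneg_right
    (show K k ≤ 2 ^ (η * (S.F k).n) by linarith) h3)
  have e1 : (2 : ℝ) ^ (2 * (u k w.2 - η / 2) * (S.F k).n) =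
      2 ^ (η * (S.F k).n) * 2 ^ (2 * (u k w.2 - η) * (S.F k).n) := by
    rw [← Real.rpow_add (by norm_num)]
    congr 1
    ring
  rw [e1] at h4
  exact le_of_mul_le_mul_left h4 (by positivity)

end

end Pool.Agent.Helper81.CP2
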